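import Mathlib

/-!
# Stabilisers of maps from a surface with boundary to a bouquet of circles

Compact connected orientable surface with non-empty boundary: `Σ = Σ_{g,b+1}` (genus `g`,
boundary components `∂_0, …, ∂_b`, marked point `v_i ∈ ∂_i`).
Choose arcs `α_j` from `v_0` to `v_j` (`j = 1..b`).  Then `π₁(Σ,v_0)` is free on
`a_1,b_1,…,a_g,b_g,x_1,…,x_b` with `x_j = α_j ∂_j α_j⁻¹`, and the loop `∂_0` is
`∏ [a_i,b_i] ∏ x_j`.

By the Dehn–Nielsen–Baer theorem for surfaces with boundary, `MCG(Σ)` (homeomorphisms fixing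
`∂Σ` pointwise modulo isotopy) is the group of automorphisms of the fundamental groupoid of
`Σ` on the marked points `v_0, …, v_b` which fix the objects and fix all boundary loops
`∂_0, …, ∂_b`. Such an automorphism `Φ` is given by its action `aut` on `π₁(Σ,v_0)` and by the
elements `w_j = arc j` with `Φ(α_j) = w_j α_j`.
-/

namespace Pool.Agent.Q138.MapStab

open FreeGroup

/-- `π₁(Σ_{g,b+1}, v_0)`: free on `a_i = inl (inl i)`, `b_i = inl (inr i)` (`i < g`) and
`x_j = inr j` (`j < b`). -/
abbrev Pi1 (g b : ℕ) : Type := FreeGroup ((Fin g ⊕ Fin g) ⊕ Fin b)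

/-- The class of the boundary loop `∂_0` : `∏ [a_i,b_i] ∏ x_j`. -/
def outerLoop (g b : ℕ) : Pi1 g b :=
  (List.ofFn fun i : Fin g =>
      (of (Sum.inl (Sum.inl i)) * of (Sum.inl (Sum.inr i)) *
        (of (Sum.inl (Sum.inl i)))⁻¹ * (of (Sum.inl (Sum.inr i)))⁻¹ : Pi1 g b)).prod *
    (List.ofFn fun j : Fin b => (of (Sum.inr j) : Pi1 g b)).prod

/-- The mapping class group of `Σ_{g,b+1}` (boundary fixed pointwise), as the group of
automorphisms of the fundamental groupoid on the marked points fixing every boundary loop: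
`aut` is the action on `π₁(Σ,v_0)` and `Φ(α_j) = arc j · α_j`. -/
@[ext]
structure MCG (g b : ℕ) where
  /-- the action on `π₁(Σ, v_0)` -/
  aut : MulAut (Pi1 g b)
  /-- `Φ(α_j) = arc j · α_j` -/
  arc : Fin b → Pi1 g b
  /-- `Φ` fixes the loop `∂_j`, `j = 1, …, b`, i.e. `Φ(x_j) = w_j x_j w_j⁻¹` -/
  inner : ∀ j, aut (of (Sum.inr j)) = arc j * of (Sum.inr j) * (arc j)⁻¹
  /-- `Φ` fixes the loop `∂_0` -/
  outer : aut (outerLoop g b) = outerLoop g b

namespace MCG

variable {g b : ℕ}

instance : One (MCG g b) :=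
  ⟨{ aut := 1, arc := fun _ => 1, inner := by simp, outer := by simp }⟩

instance : Mul (MCG g b) :=
  ⟨fun Φ Ψ =>
    { aut := Φ.aut * Ψ.aut
      arc := fun j => Φ.aut (Ψ.arc j) * Φ.arc j
      inner := by
        intro j
        simp [Ψ.inner, Φ.inner, mul_assoc]
      outer := by
        simp [Ψ.outer, Φ.outer] }⟩

instance : Inv (MCG g b) :=
  ⟨fun Φ =>
    { aut := Φ.aut⁻¹
      arc := fun j => Φ.aut⁻¹ (Φ.arc j)⁻¹
      inner := by
        intro j
        apply Φ.aut.injective
        simp [Φ.inner, mul_assoc]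
      outer := by
        apply Φ.aut.injective
        simp [Φ.outer] }⟩

@[simp] lemma one_aut : (1 : MCG g b).aut = 1 := rfl
@[simp] lemma one_arc (j) : (1 : MCG g b).arc j = 1 := rfl
@[simp] lemma mul_aut (Φ Ψ : MCG g b) : (Φ * Ψ).aut = Φ.aut * Ψ.aut := rfl
@[simp] lemma mul_arc (Φ Ψ : MCG g b) (j) : (Φ * Ψ).arc j = Φ.aut (Ψ.arc j) * Φ.arc j := rfl
@[simp] lemma inv_aut (Φ : MCG g b) : (Φ⁻¹).aut = Φ.aut⁻¹ := rfl
@[simp] lemma inv_arc (Φ : MCG g b) (j) : (Φ⁻¹).arc j = Φ.aut⁻¹ (Φ.arc j)⁻¹ := rfl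

instance : Group (MCG g b) :=
  Group.ofLeftAxioms
    (by
      intro Φ Ψ Θ
      ext1
      · simp [mul_assoc]
      · funext j; simp [mul_assoc])
    (by
      intro Φ
      ext1
      · simp
      · funext j; simp)
    (by
      intro Φ
      ext1
      · simp
      · funext j; simp)

end MCG

/-- A map `f : Σ_{g,b+1} → ⋁^r S¹` up to homotopy relative to the marked points, i.e. a functor
from the fundamental groupoid of `Σ` on the marked points to the fundamental groupoid of the
bouquet: the homomorphism `loop : π₁(Σ,v_0) → F_r` and the images `arc j ∈ F_r` of the arcs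
`α_j` (after choosing paths in the bouquet from `f(v_0), …, f(v_b)` to the base point). -/
@[ext]
structure MapClass (g b r : ℕ) where
  /-- the induced map `π₁(Σ,v_0) → F_r` -/
  loop : Pi1 g b →* FreeGroup (Fin r)
  /-- the images of the arcs `α_j` -/
  arc : Fin b → FreeGroup (Fin r)

namespace MapClass

variable {g b r : ℕ}

/-- The action `[ρ]·[f] = [f ∘ ρ⁻¹]` of `MCG(Σ)` on classes of maps. -/
instance : MulAction (MCG g b) (MapClass g b r) where
  smul ρ f :=
    { loop := f.loop.comp (ρ⁻¹).aut.toMonoidHom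
      arc := fun j => f.loop ((ρ⁻¹).arc j) * f.arc j }
  one_smul f := by
    ext1
    · ext x; simp [HSMul.hSMul]
    · funext j; simp [HSMul.hSMul]
  mul_smul ρ σ f := by
    ext1
    · ext x; simp [HSMul.hSMul]
    · funext j
      simp only [HSMul.hSMul]
      simp [mul_assoc]

lemma smul_loop (ρ : MCG g b) (f : MapClass g b r) (u : Pi1 g b) :
    (ρ • f).loop u = f.loop (ρ.aut⁻¹ u) := rfl

lemma smul_arc (ρ : MCG g b) (f : MapClass g b r) (j : Fin b) :
    (ρ • f).arc j = f.loop ((ρ⁻¹).arc j) * f.arc j := rfl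

end MapClass

/-- `MCG(f)`, the stabiliser of `[f]`. -/
abbrev Stab {g b r : ℕ} (f : MapClass g b r) : Type := MulAction.stabilizer (MCG g b) f

/-- Finite virtual cohomological dimension: some torsion-free subgroup `H` of finite index has
finite cohomological dimension. -/
def VcdFinite (Γ : Type) [Group Γ] : Prop :=
  ∃ H : Subgroup Γ, H.FiniteIndex ∧ (∀ h : H, IsOfFinOrder h → h = 1) ∧
    ∃ d : ℕ, ∀ (M : Rep.{0} ℤ H) (i : ℕ), d < i → Subsingleton (groupCohomology M i)

/-- `H_i(Γ; M)` is finitely generated for every `ℤΓ`-module `M` which is finitely generated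
as an abelian group, and every `i`. -/
def HomologyFG (Γ : Type) [Group Γ] : Prop :=
  ∀ M : Rep.{0} ℤ Γ, Module.Finite ℤ M → ∀ i : ℕ, Module.Finite ℤ (groupHomology M i)

/-- Finite homological type. -/
def FiniteHomologicalType (Γ : Type) [Group Γ] : Prop := VcdFinite Γ ∧ HomologyFG Γ

end Pool.Agent.Q138.MapStab
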