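import Pool.Agent.Q138.MapStab.Defs

/-!
# A homomorphism on `MCG(f)` for the sphere with four holes

`Σ = Σ_{0,4}`, `r = 1`, `f` of degrees `0, 1, -1` on `∂_1, ∂_2, ∂_3`.
-/

namespace Pool.Agent.Q138.MapStab

open FreeGroup (of)

/-- The affine group of `ℚ`: `⟨a, b⟩` is `x ↦ a x + b`. -/
@[ext]
structure Aff where
  a : ℚˣ
  b : ℚ

namespace Aff

instance : One Aff := ⟨⟨1, 0⟩⟩
instance : Mul Aff := ⟨fun p q => ⟨p.a * q.a, p.b + p.a * q.b⟩⟩
instance : Inv Aff := ⟨fun p => ⟨p.a⁻¹, -((p.a⁻¹ : ℚˣ) : ℚ) * p.b⟩⟩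

@[simp] lemma one_a : (1 : Aff).a = 1 := rfl
@[simp] lemma one_b : (1 : Aff).b = 0 := rfl
@[simp] lemma mul_a (p q : Aff) : (p * q).a = p.a * q.a := rfl
@[simp] lemma mul_b (p q : Aff) : (p * q).b = p.b + p.a * q.b := rfl
@[simp] lemma inv_a (p : Aff) : (p⁻¹).a = p.a⁻¹ := rfl
@[simp] lemma inv_b (p : Aff) : (p⁻¹).b = -((p.a⁻¹ : ℚˣ) : ℚ) * p.b := rfl

instance : Group Aff :=
  Group.ofLeftAxioms
    (by
      intro p q r
      ext
      · simp [mul_assoc]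
      · simp; ring)
    (by
      intro p
      ext
      · simp
      · simp)
    (by
      intro p
      ext
      · simp
      · simp)

end Aff

/-- The unit `2` of `ℚ`. -/
def two : ℚˣ := Units.mk0 2 (by norm_num)

@[simp] lemma two_val : (two : ℚ) = 2 := rfl

/-- The generators `x_1, x_2, x_3` of `π₁(Σ_{0,4})`. -/
def x1 : Pi1 0 3 := of (Sum.inr 0)
def x2 : Pi1 0 3 := of (Sum.inr 1)
def x3 : Pi1 0 3 := of (Sum.inr 2)

lemma outer_eq : outerLoop 0 3 = x1 * x2 * x3 := by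
  simp [outerLoop, List.ofFn_succ, x1, x2, x3, mul_assoc]

/-- Homomorphisms out of `π₁(Σ_{0,4})`. -/
def liftX {G : Type*} [Group G] (v : Fin 3 → G) : Pi1 0 3 →* G :=
  FreeGroup.lift (fun i => match i with
    | Sum.inl _ => 1
    | Sum.inr j => v j)

lemma liftX_of {G : Type*} [Group G] (v : Fin 3 → G) (j : Fin 3) :
    liftX v (of (Sum.inr j)) = v j := by
  simp [liftX]

@[simp] lemma liftX_x1 {G : Type*} [Group G] (v : Fin 3 → G) : liftX v x1 = v 0 := by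
  simp [liftX, x1]
@[simp] lemma liftX_x2 {G : Type*} [Group G] (v : Fin 3 → G) : liftX v x2 = v 1 := by
  simp [liftX, x2]
@[simp] lemma liftX_x3 {G : Type*} [Group G] (v : Fin 3 → G) : liftX v x3 = v 2 := by
  simp [liftX, x3]

lemma hom_ext {G : Type*} [Group G] {φ ψ : Pi1 0 3 →* G} (h1 : φ x1 = ψ x1) (h2 : φ x2 = ψ x2)
    (h3 : φ x3 = ψ x3) : φ = ψ := by
  apply FreeGroup.ext_hom
  rintro ((i | i) | j)
  · exact i.elim0
  · exact i.elim0
  · fin_cases j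
    · exact h1
    · exact h2
    · exact h3

/-- The map `f : Σ_{0,4} → S¹` of degrees `0, 1, -1` on `∂_1, ∂_2, ∂_3`. -/
def f0 : MapClass 0 3 1 where
  loop := liftX ![1, of 0, (of 0)⁻¹]
  arc := fun _ => 1

@[simp] lemma f0_x1 : f0.loop x1 = 1 := by simp [f0]
@[simp] lemma f0_x2 : f0.loop x2 = of 0 := by simp [f0]
@[simp] lemma f0_x3 : f0.loop x3 = (of 0)⁻¹ := by simp [f0]

/-- The affine representation `x_1 ↦ (z ↦ z+1)`, `x_2 ↦ (z ↦ 2z)`, `x_3 ↦ (z ↦ z/2)`. Its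
translation part is the Fox derivative with respect to `x_1`, evaluated at `f`, `t = 2`. -/
def theta : Pi1 0 3 →* Aff := liftX ![⟨1, 1⟩, ⟨two, 0⟩, ⟨two⁻¹, 0⟩]

@[simp] lemma theta_x1 : theta x1 = ⟨1, 1⟩ := by simp [theta]
@[simp] lemma theta_x2 : theta x2 = ⟨two, 0⟩ := by simp [theta]
@[simp] lemma theta_x3 : theta x3 = ⟨two⁻¹, 0⟩ := by simp [theta]

/-- The linear part of `theta` factors through `f`. -/
def lin : FreeGroup (Fin 1) →* ℚˣ := FreeGroup.lift (fun _ => two)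

/-- The linear part. -/
def Aff.linHom : Aff →* ℚˣ where
  toFun p := p.a
  map_one' := rfl
  map_mul' _ _ := rfl

lemma theta_a (u : Pi1 0 3) : (theta u).a = lin (f0.loop u) := by
  have : Aff.linHom.comp theta = lin.comp f0.loop := by
    apply hom_ext <;> simp [Aff.linHom, lin]
  exact DFunLike.congr_fun this u

/-- Membership in the stabiliser. -/
lemma stab_arc {Φ : MCG 0 3} (h : Φ • f0 = f0) (j : Fin 3) : f0.loop (Φ.arc j) = 1 := by
  have h' : Φ⁻¹ • f0 = f0 := by rw [inv_smul_eq_iff, h]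
  have := congrArg (fun m : MapClass 0 3 1 => m.arc j) h'
  simp only [MapClass.smul_arc, inv_inv] at this
  simpa using this

lemma stab_loop {Φ : MCG 0 3} (h : Φ • f0 = f0) (u : Pi1 0 3) :
    f0.loop (Φ.aut u) = f0.loop u := by
  have h' : Φ⁻¹ • f0 = f0 := by rw [inv_smul_eq_iff, h]
  have := congrArg (fun m : MapClass 0 3 1 => m.loop u) h'
  simpa [MapClass.smul_loop] using this

lemma theta_arc {Φ : MCG 0 3} (h : Φ • f0 = f0) (j : Fin 3) : (theta (Φ.arc j)).a = 1 := by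
  rw [theta_a, stab_arc h, map_one]

lemma aut_x1 (Φ : MCG 0 3) : Φ.aut x1 = Φ.arc 0 * x1 * (Φ.arc 0)⁻¹ := Φ.inner 0
lemma aut_x2 (Φ : MCG 0 3) : Φ.aut x2 = Φ.arc 1 * x2 * (Φ.arc 1)⁻¹ := Φ.inner 1
lemma aut_x3 (Φ : MCG 0 3) : Φ.aut x3 = Φ.arc 2 * x3 * (Φ.arc 2)⁻¹ := Φ.inner 2

/-- The key identity: `θ ∘ Φ` is the conjugate of `θ` by a translation. -/
lemma theta_aut {Φ : MCG 0 3} (h : Φ • f0 = f0) (u : Pi1 0 3) :
    theta (Φ.aut u) =
      ⟨1, (theta (Φ.arc 1)).b⟩ * theta u * (⟨1, (theta (Φ.arc 1)).b⟩ : Aff)⁻¹ := by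
  have e3 : (theta (Φ.arc 2)).b = (theta (Φ.arc 1)).b := by
    have ho := Φ.outer
    rw [outer_eq] at ho
    simp only [map_mul, aut_x1, aut_x2, aut_x3] at ho
    have hb := congrArg (fun w => (theta w).b) ho
    simp [theta_arc h] at hb
    have h2 : (two : ℚ) = 2 := rfl
    field_simp at hb
    linarith
  have key : theta.comp Φ.aut.toMonoidHom =
      ((MulAut.conj (⟨1, (theta (Φ.arc 1)).b⟩ : Aff)).toMonoidHom).comp theta := by
    apply hom_ext
    · simp only [MonoidHom.comp_apply, MulEquiv.toMonoidHom_eq_coe, MonoidHom.coe_coe, aut_x1]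
      ext <;> simp [theta_arc h]
    · simp only [MonoidHom.comp_apply, MulEquiv.toMonoidHom_eq_coe, MonoidHom.coe_coe, aut_x2]
      ext <;> simp [theta_arc h]
    · simp only [MonoidHom.comp_apply, MulEquiv.toMonoidHom_eq_coe, MonoidHom.coe_coe, aut_x3]
      ext <;> simp [theta_arc h, e3]
  have := DFunLike.congr_fun key u
  simpa using this

/-- The homomorphism `L : MCG(f) → ℚ`. -/
def L : Stab f0 →* Multiplicative ℚ where
  toFun Φ := Multiplicative.ofAdd (theta (Φ.1.arc 0)).b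
  map_one' := by simp
  map_mul' := by
    rintro ⟨Φ, hΦ⟩ ⟨Ψ, hΨ⟩
    rw [MulAction.mem_stabilizer_iff] at hΦ hΨ
    rw [← ofAdd_add]
    congr 1
    show (theta ((Φ * Ψ).arc 0)).b = _
    rw [MCG.mul_arc, map_mul, theta_aut hΦ]
    simp [theta_arc hΨ]
    ring

end Pool.Agent.Q138.MapStab
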