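import Pool.Agent.Q138.MapStab.Twists

/-!
# `H_1(MCG(f); ℤ)` is not finitely generated
-/

namespace Pool.Agent.Q138.MapStab

open CategoryTheory

/-- A finitely generated subgroup of `ℚ` has a common denominator. -/
lemma common_denom {N : Submodule ℤ ℚ} (h : N.FG) :
    ∃ k : ℕ, 0 < k ∧ ∀ x ∈ N, ∃ z : ℤ, (k : ℚ) * x = z := by
  obtain ⟨S, hS⟩ := h
  refine ⟨∏ x ∈ S, x.den, Finset.prod_pos fun x _ => x.den_pos, ?_⟩
  intro x hx
  rw [← hS] at hx
  induction hx using Submodule.span_induction with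
  | mem x hx =>
    have hx' : x ∈ S := by simpa using hx
    refine ⟨(∏ y ∈ S.erase x, y.den : ℕ) * x.num, ?_⟩
    rw [← Finset.prod_erase_mul S _ hx']
    push_cast
    rw [mul_assoc, Rat.den_mul_eq_num]
  | zero => exact ⟨0, by simp⟩
  | add x y _ _ hx hy =>
    obtain ⟨a, ha⟩ := hx
    obtain ⟨b, hb⟩ := hy
    exact ⟨a + b, by rw [mul_add, ha, hb]; push_cast; ring⟩
  | smul a x _ hx =>
    obtain ⟨b, hb⟩ := hx
    refine ⟨a * b, ?_⟩
    rw [zsmul_eq_mul, mul_left_comm, hb]; push_cast; ring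

/-- No finitely generated subgroup of `ℚ` contains all `2 - 2^m - 2^{-m}`. -/
lemma not_fg {N : Submodule ℤ ℚ} (hN : ∀ m : ℕ, (2 - 2 ^ m - (2 ^ m)⁻¹ : ℚ) ∈ N) : ¬ N.FG := by
  intro h
  obtain ⟨k, hk, hall⟩ := common_denom h
  obtain ⟨z, hz⟩ := hall _ (hN k)
  have h2 : (2 ^ k : ℚ) ≠ 0 := by positivity
  have h3 : (k : ℚ) = 2 ^ k * (2 * k - 2 ^ k * k - z) := by
    rw [← hz]; field_simp; ring
  have h4 : (k : ℤ) = 2 ^ k * (2 * k - 2 ^ k * k - z) := by exact_mod_cast h3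
  have h5 : ((2 ^ k : ℕ) : ℤ) ∣ (k : ℤ) := ⟨_, by push_cast; exact h4⟩
  have h6 : 2 ^ k ∣ k := Int.natCast_dvd_natCast.mp h5
  have h7 := Nat.le_of_dvd hk h6
  exact absurd h7 (not_le.mpr Nat.lt_two_pow_self)

/-- If `H_1(Γ; ℤ)` is finitely generated then every homomorphism `Γ → ℚ` has finitely
generated image. -/
lemma range_fg {Γ : Type} [Group Γ] (ℓ : Γ →* Multiplicative ℚ)
    (h : Module.Finite ℤ (groupHomology (Rep.trivial ℤ Γ ℤ) 1)) :
    ∃ N : Submodule ℤ ℚ, N.FG ∧ ∀ x : Γ, Multiplicative.toAdd (ℓ x) ∈ N := by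
  let e := groupHomology.H1AddEquivOfIsTrivial (Rep.trivial ℤ Γ ℤ)
  -- the homomorphism from the abelianization
  let ℓ' : Additive (Abelianization Γ) →+ ℚ :=
    MonoidHom.toAdditiveLeft (Abelianization.lift ℓ)
  let r : (TensorProduct ℤ (Additive (Abelianization Γ)) (Rep.trivial ℤ Γ ℤ)) →+ ℚ :=
    ℓ'.comp (TensorProduct.rid ℤ (Additive (Abelianization Γ))).toAddEquiv.toAddMonoidHom
  let q : groupHomology (Rep.trivial ℤ Γ ℤ) 1 →+ ℚ := r.comp e.toAddMonoidHom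
  let q' : groupHomology (Rep.trivial ℤ Γ ℤ) 1 →ₗ[ℤ] ℚ :=
    { toFun := q
      map_add' := map_add q
      map_smul' := fun z x => by
        have h1 := int_smul_eq_zsmul (groupHomology (Rep.trivial ℤ Γ ℤ) 1).isModule z x
        have h2 := map_zsmul q z x
        rw [← h1] at h2
        exact h2 }
  refine ⟨(⊤ : Submodule ℤ _).map q', Submodule.FG.map _ h.fg_top, ?_⟩
  intro x
  refine ⟨e.symm ((Additive.ofMul (Abelianization.of x)) ⊗ₜ[ℤ] (1 : ℤ)), trivial, ?_⟩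
  show r (e (e.symm _)) = _
  rw [AddEquiv.apply_symm_apply]
  show ℓ' ((TensorProduct.rid ℤ (Additive (Abelianization Γ)))
    ((Additive.ofMul (Abelianization.of x)) ⊗ₜ[ℤ] (1 : ℤ))) = _
  rw [TensorProduct.rid_tmul, one_smul]
  rfl

/-- `H_1(MCG(f); ℤ)` is not finitely generated. -/
theorem not_finite_H1 :
    ¬ Module.Finite ℤ (groupHomology (Rep.trivial ℤ (Stab f0) ℤ) 1) := by
  intro h
  obtain ⟨N, hN, hall⟩ := range_fg L h
  exact not_fg (fun m => by rw [← L_Tm m]; exact hall _) hN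

end Pool.Agent.Q138.MapStab
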