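import Pool.Agent.Q138.MapStab.Fox

/-!
# The twists `T_m = s^m τ s^{-m}`
-/

namespace Pool.Agent.Q138.MapStab

open FreeGroup (of)

/-- The curve around the holes `1,2`. -/
def c : Pi1 0 3 := x1 * x2
/-- The curve around the holes `2,3`. -/
def d : Pi1 0 3 := x2 * x3

/-- the automorphism of the twist about `c` -/
def sAut : MulAut (Pi1 0 3) :=
  MonoidHom.toMulEquiv (liftX ![c * x1 * c⁻¹, c * x2 * c⁻¹, x3])
    (liftX ![c⁻¹ * x1 * c, c⁻¹ * x2 * c, x3])
    (by apply hom_ext <;> simp [c, mul_assoc])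
    (by apply hom_ext <;> simp [c, mul_assoc])

@[simp] lemma sAut_x1 : sAut x1 = c * x1 * c⁻¹ := by simp [sAut]
@[simp] lemma sAut_x2 : sAut x2 = c * x2 * c⁻¹ := by simp [sAut]
@[simp] lemma sAut_x3 : sAut x3 = x3 := by simp [sAut]
@[simp] lemma sAut_c : sAut c = c := by
  have : sAut c = sAut x1 * sAut x2 := by rw [c, map_mul]
  rw [this]; simp [c, mul_assoc]

/-- the automorphism of the twist about `d` -/
def tAut : MulAut (Pi1 0 3) :=
  MonoidHom.toMulEquiv (liftX ![x1, d * x2 * d⁻¹, d * x3 * d⁻¹])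
    (liftX ![x1, d⁻¹ * x2 * d, d⁻¹ * x3 * d])
    (by apply hom_ext <;> simp [d, mul_assoc])
    (by apply hom_ext <;> simp [d, mul_assoc])

@[simp] lemma tAut_x1 : tAut x1 = x1 := by simp [tAut]
@[simp] lemma tAut_x2 : tAut x2 = d * x2 * d⁻¹ := by simp [tAut]
@[simp] lemma tAut_x3 : tAut x3 = d * x3 * d⁻¹ := by simp [tAut]

/-- The Dehn twist about the curve around the holes `1,2`. -/
def s : MCG 0 3 where
  aut := sAut
  arc := ![c, c, 1]
  inner := by
    intro j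
    fin_cases j
    · exact sAut_x1
    · exact sAut_x2
    · show sAut x3 = 1 * x3 * 1⁻¹
      simp
  outer := by
    rw [outer_eq]
    simp [c, mul_assoc]

/-- The Dehn twist about the curve around the holes `2,3`. -/
def tau : MCG 0 3 where
  aut := tAut
  arc := ![1, d, d]
  inner := by
    intro j
    fin_cases j
    · show tAut x1 = 1 * x1 * 1⁻¹
      simp
    · exact tAut_x2
    · exact tAut_x3
  outer := by
    rw [outer_eq]
    simp [d, mul_assoc]

lemma spow_c (m : ℕ) : (s ^ m).aut c = c := by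
  induction m with
  | zero => simp
  | succ m ih =>
    rw [pow_succ, MCG.mul_aut, MulAut.mul_apply]
    show (s ^ m).aut (sAut c) = c
    rw [sAut_c, ih]

lemma spow_arc0 (m : ℕ) : (s ^ m).arc 0 = c ^ m := by
  induction m with
  | zero => simp
  | succ m ih =>
    rw [pow_succ, MCG.mul_arc, ih]
    show (s ^ m).aut c * c ^ m = _
    rw [spow_c, pow_succ']

lemma spow_arc1 (m : ℕ) : (s ^ m).arc 1 = c ^ m := by
  induction m with
  | zero => simp
  | succ m ih =>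
    rw [pow_succ, MCG.mul_arc, ih]
    show (s ^ m).aut c * c ^ m = _
    rw [spow_c, pow_succ']

lemma spow_arc2 (m : ℕ) : (s ^ m).arc 2 = 1 := by
  induction m with
  | zero => simp
  | succ m ih =>
    rw [pow_succ, MCG.mul_arc, ih]
    show (s ^ m).aut 1 * 1 = _
    simp

lemma spow_x1 (m : ℕ) : (s ^ m).aut x1 = c ^ m * x1 * (c ^ m)⁻¹ := by
  rw [aut_x1, spow_arc0]
lemma spow_x2 (m : ℕ) : (s ^ m).aut x2 = c ^ m * x2 * (c ^ m)⁻¹ := by
  rw [aut_x2, spow_arc1]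
lemma spow_x3 (m : ℕ) : (s ^ m).aut x3 = x3 := by
  rw [aut_x3, spow_arc2]; simp

/-- The Dehn twist about the image of the curve around the holes `2,3` under the `m`-th power
of the twist about the curve around the holes `1,2`. -/
def Tm (m : ℕ) : MCG 0 3 := s ^ m * tau * (s ^ m)⁻¹

lemma spow_inv_c (m : ℕ) (k : ℕ) : (s ^ m).aut⁻¹ (c ^ k) = c ^ k := by
  have : (s ^ m).aut (c ^ k) = c ^ k := by rw [map_pow, spow_c]
  rw [MulAut.inv_apply, MulEquiv.symm_apply_eq, this]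

lemma Tm_arc0 (m : ℕ) : (Tm m).arc 0 = ((s ^ m).aut (tAut c) ^ m)⁻¹ * c ^ m := by
  rw [Tm, MCG.mul_arc, MCG.mul_arc, MCG.inv_arc, spow_arc0, map_inv, spow_inv_c]
  show (s ^ m * tau).aut (c ^ m)⁻¹ * ((s ^ m).aut 1 * c ^ m) = _
  rw [map_inv, map_pow, MCG.mul_aut, MulAut.mul_apply]
  show ((s ^ m).aut (tAut c) ^ m)⁻¹ * ((s ^ m).aut 1 * c ^ m) = _
  simp

lemma theta_c : theta c = ⟨two, 1⟩ := by
  rw [c, map_mul, theta_x1, theta_x2]
  ext <;> simp

lemma theta_cpow (m : ℕ) : theta (c ^ m) = ⟨two ^ m, 2 ^ m - 1⟩ := by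
  rw [map_pow, theta_c]
  induction m with
  | zero => ext <;> simp
  | succ m ih =>
    rw [pow_succ, ih]
    ext
    · simp [pow_succ]
    · simp [pow_succ]; ring

lemma theta_u (m : ℕ) : theta ((s ^ m).aut (tAut c)) =
    ⟨1, 1 - 2 ^ m⟩ * theta c * (⟨1, 1 - 2 ^ m⟩ : Aff)⁻¹ := by
  have h1 : tAut c = x1 * (d * x2 * d⁻¹) := by rw [c, map_mul, tAut_x1, tAut_x2]
  have hd : (s ^ m).aut d = c ^ m * x2 * (c ^ m)⁻¹ * x3 := by
    rw [d, map_mul, spow_x2, spow_x3]
  rw [h1]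
  simp only [map_mul (s ^ m).aut, map_inv (s ^ m).aut, hd, spow_x1, spow_x2]
  simp only [map_mul, map_inv, theta_cpow, theta_x1, theta_x2, theta_x3, theta_c]
  ext
  · simp
  · simp
    field_simp
    ring

lemma L_Tm_aux (m : ℕ) : (theta ((Tm m).arc 0)).b = 2 - 2 ^ m - (2 ^ m)⁻¹ := by
  have h : theta ((Tm m).arc 0) = ⟨1, 1 - 2 ^ m⟩ * (theta (c ^ m))⁻¹ *
      (⟨1, 1 - 2 ^ m⟩ : Aff)⁻¹ * theta (c ^ m) := by
    rw [Tm_arc0, map_mul, map_inv, map_pow, theta_u, conj_pow, map_pow]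
    group
  rw [h, theta_cpow]
  simp
  field_simp
  ring

lemma f0_c : f0.loop c = of 0 := by rw [c, map_mul, f0_x1, f0_x2, one_mul]
lemma f0_d : f0.loop d = 1 := by rw [d, map_mul, f0_x2, f0_x3, mul_inv_cancel]

lemma f0_s (m : ℕ) (u : Pi1 0 3) : f0.loop ((s ^ m).aut u) = f0.loop u := by
  have : f0.loop.comp (s ^ m).aut.toMonoidHom = f0.loop := by
    apply hom_ext
    · simp [spow_x1, f0_c]
    · simp only [MonoidHom.comp_apply, MulEquiv.toMonoidHom_eq_coe, MonoidHom.coe_coe, spow_x2,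
        map_mul, map_pow, map_inv, f0_c, f0_x2]
      group
    · simp [spow_x3]
  exact DFunLike.congr_fun this u

lemma f0_s_inv (m : ℕ) (u : Pi1 0 3) : f0.loop ((s ^ m).aut⁻¹ u) = f0.loop u := by
  conv_rhs => rw [← MulAut.apply_inv_self _ (s ^ m).aut u]
  rw [f0_s]

lemma f0_tau (u : Pi1 0 3) : f0.loop (tau.aut u) = f0.loop u := by
  have : f0.loop.comp tau.aut.toMonoidHom = f0.loop := by
    apply hom_ext
    · show f0.loop (tAut x1) = _
      simp
    · show f0.loop (tAut x2) = _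
      simp [f0_d]
    · show f0.loop (tAut x3) = _
      simp [f0_d]
  exact DFunLike.congr_fun this u

lemma f0_tau_inv (u : Pi1 0 3) : f0.loop (tau.aut⁻¹ u) = f0.loop u := by
  conv_rhs => rw [← MulAut.apply_inv_self _ tau.aut u]
  rw [f0_tau]

lemma f0_tau_arc (j : Fin 3) : f0.loop (tau.arc j) = 1 := by
  fin_cases j
  · show f0.loop 1 = 1
    simp
  · exact f0_d
  · exact f0_d

lemma tau_fix {h : MapClass 0 3 1} (hh : h.loop = f0.loop) : tau • h = h := by
  ext1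
  · ext1 u
    rw [MapClass.smul_loop, hh, f0_tau_inv]
  · funext j
    rw [MapClass.smul_arc, hh, MCG.inv_arc, f0_tau_inv, map_inv, f0_tau_arc, inv_one, one_mul]

lemma Tm_fix (m : ℕ) : Tm m • f0 = f0 := by
  rw [Tm, mul_smul, mul_smul, tau_fix, smul_inv_smul]
  ext1 u
  rw [MapClass.smul_loop, MCG.inv_aut, inv_inv, f0_s]

/-- `T_m` as an element of `MCG(f)`. -/
def TmS (m : ℕ) : Stab f0 := ⟨Tm m, Tm_fix m⟩

lemma L_Tm (m : ℕ) : Multiplicative.toAdd (L (TmS m)) = 2 - 2 ^ m - (2 ^ m)⁻¹ := L_Tm_aux m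

end Pool.Agent.Q138.MapStab
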